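import Pool.Agent.H92.SR.Fin1

/-!
# The sum of square roots problem with `≥`

The program of `Pool/Agent/H92/SR` decides `∑ √a ≤ k` for natural `k`. Here: `k ≤ ∑ √a` for an integer `k`. If `k < 0` the
answer is yes. If all `a` are squares (the two sums at precision `0` agree), the sum is an integer and is compared with `k`.
Otherwise `∑ √a ≠ k` (`lsp1`), and the answer is the negation of the answer of the program for `≤`.
-/

set_option autoImplicit false

namespace Pool.Agent.H8.SS

open Pool.Agent.H92.SR Pool.Agent.H92.SR.Tr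

/-- an integer as a tree: the sign and the binary digits of the absolute value -/
def encZ (k : ℤ) : Tr := node (bit (decide (k < 0))) (encN k.natAbs)

/-- an instance of the sum of square roots problem as a tree -/
def encS (L : List ℕ) (k : ℤ) : Tr := node (encL L) (encZ k)

/-- the first part of the program: the answer in the easy cases, otherwise the instance for `≤` -/
def pre (v : Tr) : Tr :=
  if fst (snd v) = leaf then
    if ltb (fst (sums (fst v) leaf)) (snd (sums (fst v) leaf)) = true then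
      node one (node (fst v) (snd (snd v)))
    else
      if ltb (fst (sums (fst v) leaf)) (snd (snd v)) = true then node leaf (bit false)
      else node leaf (bit true)
  else node leaf (bit true)

theorem FP_pre : FP pre := by
  have hltb : ∀ {X Y : Tr → Tr}, FP X → FP Y → FP (fun v => bit (ltb (X v) (Y v))) :=
    fun hX hY => FP.sc2 gs g3 false (FP.cat' hX hY) hX hY
  have hF : FP fun v => fst v := FP.fst' FP.id'
  have hK : FP fun v => snd (snd v) := FP.snd' (FP.snd' FP.id')
  have hS := FP.sums' hF FP.leaf'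
  exact FP.ite' (FP.fst' (FP.snd' FP.id'))
    (FP.iteB (hltb (FP.fst' hS) (FP.snd' hS)) (FP.node' (FP.const' _) (FP.node' hF hK))
      (FP.iteB (hltb (FP.fst' hS) hK) (FP.const' _) (FP.const' _))) (FP.const' _)

theorem ls_zero (L : List ℕ) : ls L 0 = (L.map Nat.sqrt).sum := by
  simp [ls]

theorem us_zero (L : List ℕ) : us L 0 = (L.map csq).sum := by
  simp [us]

theorem csq_sq {a : ℕ} (h : IsSquare a) : csq a = Nat.sqrt a := by
  obtain ⟨r, rfl⟩ := h
  unfold csq
  rw [Nat.sqrt_eq, if_pos (by ring)]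

theorem csq_lt {a : ℕ} (h : ¬ IsSquare a) : Nat.sqrt a < csq a := by
  unfold csq
  rw [if_neg]
  · omega
  · intro h1
    exact h ⟨Nat.sqrt a, by rw [← h1]; ring_nf; rw [Nat.sqrt_eq'] ⟩

theorem csq_ge (a : ℕ) : Nat.sqrt a ≤ csq a := by
  unfold csq
  split_ifs <;> omega

theorem sums_le (L : List ℕ) : (L.map Nat.sqrt).sum ≤ (L.map csq).sum := by
  induction L with
  | nil => simp
  | cons a L ih =>
    simp only [List.map_cons, List.sum_cons]
    have := csq_ge a
    omega

theorem lt_iff (L : List ℕ) : ls L 0 < us L 0 ↔ ¬ ∀ a ∈ L, IsSquare a := by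
  rw [ls_zero, us_zero]
  induction L with
  | nil => simp
  | cons a L ih =>
    simp only [List.map_cons, List.sum_cons, List.forall_mem_cons]
    by_cases ha : IsSquare a
    · rw [csq_sq ha]
      simp only [ha, true_and]
      rw [← ih]
      omega
    · have h1 := csq_lt ha
      have h2 := sums_le L
      simp only [ha, false_and, not_false_eq_true, iff_true]
      omega

theorem sum_sq {L : List ℕ} (h : ∀ a ∈ L, IsSquare a) :
    (L.map fun a : ℕ => √(a : ℝ)).sum = (ls L 0 : ℝ) := by
  rw [ls_zero]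
  induction L with
  | nil => simp
  | cons a L ih =>
    rw [List.forall_mem_cons] at h
    simp only [List.map_cons, List.sum_cons]
    rw [ih h.2]
    obtain ⟨r, hr⟩ := h.1
    subst hr
    rw [Nat.sqrt_eq]
    push_cast
    rw [Real.sqrt_mul_self (Nat.cast_nonneg r)]

open Classical in
theorem pre_spec (L : List ℕ) (k : ℤ) :
    (pre (encS L k) = node leaf (bit (decide ((k : ℝ) ≤ (L.map fun a : ℕ => √(a : ℝ)).sum)))) ∨
    (pre (encS L k) = node one (encI L k.natAbs) ∧
      decide ((k : ℝ) ≤ (L.map fun a : ℕ => √(a : ℝ)).sum) = !decide (EE L k.natAbs ≤ 0)) := by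
  have hs0 : 0 ≤ (L.map fun a : ℕ => √(a : ℝ)).sum := by
    apply List.sum_nonneg
    intro x hx
    rw [List.mem_map] at hx
    obtain ⟨a, -, rfl⟩ := hx
    exact Real.sqrt_nonneg _
  obtain ⟨hl, hu⟩ := sums_vl L leaf
  rw [show len leaf = 0 from rfl] at hl hu
  have e : pre (encS L k) = if bit (decide (k < 0)) = leaf then
      if ltb (fst (sums (encL L) leaf)) (snd (sums (encL L) leaf)) = true then
        node one (encI L k.natAbs)
      else
        if ltb (fst (sums (encL L) leaf)) (encN k.natAbs) = true then node leaf (bit false)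
        else node leaf (bit true)
    else node leaf (bit true) := rfl
  rcases lt_or_ge k 0 with hk | hk
  · left
    have h1 : (k : ℝ) ≤ (L.map fun a : ℕ => √(a : ℝ)).sum := by
      have : (k : ℝ) < 0 := by exact_mod_cast hk
      linarith
    rw [e, decide_eq_true h1, decide_eq_true hk, if_neg (by simp [bit])]
  · have hkr : (k : ℝ) = (k.natAbs : ℝ) := by
      have h1 : ((k.natAbs : ℤ) : ℝ) = (k : ℝ) := by rw [Int.natAbs_of_nonneg hk]
      rw [← h1, Int.cast_natCast]
    have hk' : decide (k < 0) = false := decide_eq_false (not_lt.2 hk)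
    by_cases hsq : ∀ a ∈ L, IsSquare a
    · left
      rw [e, hk', if_pos (show bit false = leaf from rfl), if_neg (by rw [ltb_iff, hl, hu, lt_iff]; exact not_not.2 hsq),
        sum_sq hsq, hkr]
      by_cases h2 : ls L 0 < k.natAbs
      · rw [if_pos (by rw [ltb_iff, hl, vl_encN]; exact h2)]
        rw [decide_eq_false]
        rw [not_le]
        exact_mod_cast h2
      · rw [if_neg (by rw [ltb_iff, hl, vl_encN]; exact h2)]
        rw [decide_eq_true]
        exact_mod_cast not_lt.1 h2
    · right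
      refine ⟨?_, ?_⟩
      · rw [e, hk', if_pos (show bit false = leaf from rfl), if_pos (by rw [ltb_iff, hl, hu, lt_iff]; exact hsq)]
      · have h1 := lsp1 (k := k.natAbs) hsq
          (S := max 1 ((L.map fun a : ℕ => √(a : ℝ)).sum + k.natAbs))
          (le_max_left _ _) (le_max_right _ _)
        have h2 : EE L k.natAbs ≠ 0 := by
          intro h
          rw [h] at h1
          norm_num at h1
        have h3 : EE L k.natAbs = (L.map fun a : ℕ => √(a : ℝ)).sum - k := by
          rw [hkr]
          rfl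
        rcases lt_or_gt_of_ne h2 with h4 | h4
        · rw [decide_eq_true h4.le, decide_eq_false]
          · rfl
          · rw [h3] at h4
            linarith
        · rw [decide_eq_false (not_le.2 h4), decide_eq_true]
          · rfl
          · rw [h3] at h4
            linarith

/-- the negation of a bit -/
def ng (v : Tr) : Tr := if v = leaf then bit true else leaf

theorem FP_ng : FP ng := FP.ite' FP.id' (FP.const' _) FP.leaf'

theorem ng_bit (b : Bool) : ng (bit b) = bit (!b) := by
  cases b <;> simp [ng, bit]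

/-- the size of an instance -/
def szs (L : List ℕ) (k : ℤ) : ℕ := bsz L k.natAbs

theorem size_encS (L : List ℕ) (k : ℤ) : size (encS L k) ≤ 8 * szs L k + 12 := by
  have h := size_encI L k.natAbs
  have h2 := size_bit_le (decide (k < 0))
  simp only [encI, size, encS, encZ, szs] at *
  omega

open Classical in
/-- a program for `≥` which is slower than the one for `≤` by a polynomial only -/
theorem ge0 (c : Prog) (T : List ℕ → ℕ → ℕ)
    (hc : ∀ L k, Eval c (encI L k) (bit (decide (EE L k ≤ 0))) (T L k)) :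
    ∃ (c' : Prog) (q : Polynomial ℕ), ∀ (L : List ℕ) (k : ℤ), ∃ t ≤ T L k.natAbs + q.eval (szs L k),
      Eval c' (encS L k) (bit (decide ((k : ℝ) ≤ (L.map fun a : ℕ => √(a : ℝ)).sum))) t := by
  obtain ⟨s, hs⟩ := FP_pre.size_bound
  obtain ⟨c1, q1, h1⟩ := FP_pre
  obtain ⟨c2, q2, h2⟩ := FP_ng
  refine ⟨Prog.comp (Prog.cond Prog.id (Prog.comp c2 c)) c1,
    (q1 + 4 * s + Polynomial.X + 10).comp (8 * Polynomial.X + 12) + Polynomial.C (q2.eval 3),
    fun L k => ?_⟩
  obtain ⟨t1, ht1, he1⟩ := h1 (encS L k)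
  have hsz := size_encS L k
  have m1 : q1.eval (size (encS L k)) ≤ q1.eval (8 * szs L k + 12) := poly_mono q1 hsz
  have m2 : size (pre (encS L k)) ≤ s.eval (8 * szs L k + 12) := (hs _).trans (poly_mono s hsz)
  have e3 : (((q1 + 4 * s + Polynomial.X + 10).comp (8 * Polynomial.X + 12) +
      Polynomial.C (q2.eval 3)).eval (szs L k)) = q1.eval (8 * szs L k + 12) +
      4 * s.eval (8 * szs L k + 12) + (8 * szs L k + 12) + 10 + q2.eval 3 := by
    simp [Polynomial.eval_comp]
  rcases pre_spec L k with h | ⟨h, hd⟩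
  · rw [h] at he1 m2
    have he2 : Eval (Prog.cond Prog.id (Prog.comp c2 c))
        (node leaf (bit (decide ((k : ℝ) ≤ (L.map fun a : ℕ => √(a : ℝ)).sum))))
        (bit (decide ((k : ℝ) ≤ (L.map fun a : ℕ => √(a : ℝ)).sum))) _ :=
      Eval.condNil rfl (Eval.id _)
    refine ⟨_, ?_, Eval.comp he1 he2⟩
    rw [e3]
    simp only [snd, size] at m2 ⊢
    omega
  · rw [h] at he1 m2
    obtain ⟨t2, ht2, he2⟩ := h2 (bit (decide (EE L k.natAbs ≤ 0)))
    rw [ng_bit, ← hd] at he2
    have he3 : Eval (Prog.cond Prog.id (Prog.comp c2 c)) (node one (encI L k.natAbs))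
        (bit (decide ((k : ℝ) ≤ (L.map fun a : ℕ => √(a : ℝ)).sum))) _ :=
      Eval.condNode (by simp [fst, one]) (Eval.comp (hc L k.natAbs) he2)
    refine ⟨_, ?_, Eval.comp he1 he3⟩
    rw [e3]
    have m3 : q2.eval (size (bit (decide (EE L k.natAbs ≤ 0)))) ≤ q2.eval 3 :=
      poly_mono q2 (size_bit_le _)
    simp only [snd, size] at m2 ⊢
    omega

open Classical in
theorem ge1 : ∃ (c : Prog) (T : List ℕ → ℤ → ℕ) (q : Polynomial ℕ) (K Λ : ℕ), 1 ≤ Λ ∧
    (∀ (L : List ℕ) (k : ℤ),
      Eval c (encS L k) (bit (decide ((k : ℝ) ≤ (L.map fun a : ℕ => √(a : ℝ)).sum))) (T L k)) ∧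
    (∀ (n : ℕ) (k : ℤ) (A W : Fin n → ℕ), (∀ i, K * n ≤ W i) →
      ∑ a ∈ box A W, T (List.ofFn a) k ≤ (∏ i, W i) * q.eval (bbx A W k.natAbs)) ∧
    ∀ (n : ℕ) (k : ℤ) (m : ℕ) (A W : Fin n → ℕ),
      m ≤ (Finset.univ.filter fun i => K * m ≤ W i).card →
      ((box A W).filter fun a => q.eval (bbx A W k.natAbs) * Λ ^ m < T (List.ofFn a) k).card *
        (2 * Λ) ^ m ≤ ∏ i, W i := by
  obtain ⟨c, T, q, K, Λ, hΛ, h1, -, h3, h4⟩ := fin1
  obtain ⟨c', q', h'⟩ := ge0 c T h1
  choose T' hT' hE' using h'
  have hb : ∀ (n : ℕ) (k : ℤ) (A W : Fin n → ℕ) (a : Fin n → ℕ), a ∈ box A W →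
      T' (List.ofFn a) k ≤ T (List.ofFn a) k.natAbs + q'.eval (bbx A W k.natAbs) := by
    intro n k A W a ha
    refine (hT' _ _).trans (Nat.add_le_add_left (poly_mono q' ?_) _)
    exact bsz_box ha _
  refine ⟨c', T', q + q', K, Λ, hΛ, hE', ?_, ?_⟩
  · intro n k A W hW
    calc ∑ a ∈ box A W, T' (List.ofFn a) k
        ≤ ∑ a ∈ box A W, (T (List.ofFn a) k.natAbs + q'.eval (bbx A W k.natAbs)) :=
          Finset.sum_le_sum fun a ha => hb n k A W a ha
      _ = ∑ a ∈ box A W, T (List.ofFn a) k.natAbs +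
          (box A W).card * q'.eval (bbx A W k.natAbs) := by
          rw [Finset.sum_add_distrib, Finset.sum_const, smul_eq_mul]
      _ ≤ (∏ i, W i) * q.eval (bbx A W k.natAbs) +
          (∏ i, W i) * q'.eval (bbx A W k.natAbs) := by
          rw [card_box]
          exact Nat.add_le_add_right (h3 n k.natAbs A W hW) _
      _ = (∏ i, W i) * (q + q').eval (bbx A W k.natAbs) := by
          rw [Polynomial.eval_add]
          ring
  · intro n k m A W hm
    refine le_trans (Nat.mul_le_mul_right _ (Finset.card_le_card ?_)) (h4 n k.natAbs m A W hm)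
    intro a ha
    rw [Finset.mem_filter] at ha ⊢
    refine ⟨ha.1, ?_⟩
    have h5 := hb n k A W a ha.1
    have h6 : q'.eval (bbx A W k.natAbs) ≤ q'.eval (bbx A W k.natAbs) * Λ ^ m :=
      Nat.le_mul_of_pos_right _ (pow_pos (by omega) m)
    have h7 := ha.2
    rw [Polynomial.eval_add, add_mul] at h7
    omega

end Pool.Agent.H8.SS
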